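import Pool.Agent.Run7.h147.Final
import Pool.Agent.Run7.h147.Weak
import Pool.Agent.Run7.h147.Ml7

/-!
Tracy-Widom limits of the longest increasing subsequence of a Mallows permutation: the sequences
along which `n (1 - q_n)` stays bounded.
-/

namespace Pool.Agent.Results.MP_5d6058_pr.TWBoundedIff

open MeasureTheory Filter Topology ProbabilityTheory

/-- The number of inversions of a permutation. -/
def inv {n : ℕ} (π : Equiv.Perm (Fin n)) : ℕ :=
  (Finset.univ.filter fun z : Fin n × Fin n => z.1 < z.2 ∧ π z.2 < π z.1).card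

/-- The length of a longest increasing subsequence of a permutation. -/
def lis {n : ℕ} (π : Equiv.Perm (Fin n)) : ℕ :=
  (Finset.univ.filter fun s : Finset (Fin n) => ∀ i ∈ s, ∀ j ∈ s, i < j → π i < π j).sup Finset.card

/-- The law of `(L_n(q) - a) / b`, where `L_n(q)` is the length of a longest increasing
subsequence of a Mallows(`q`) permutation of size `n`. -/
noncomputable def mallowsLaw (n : ℕ) (q a b : ℝ) : Measure ℝ :=
  ∑ π : Equiv.Perm (Fin n), ENNReal.ofReal (q ^ inv π / ∑ σ : Equiv.Perm (Fin n), q ^ inv σ) •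
    Measure.dirac (((lis π : ℝ) - a) / b)

/-- Convergence in distribution of probability measures on the line. -/
def ConvInDist (μ : ℕ → Measure ℝ) (F : Measure ℝ) : Prop :=
  ∀ f : BoundedContinuousFunction ℝ ℝ, Tendsto (fun n => ∫ x, f x ∂(μ n)) atTop (𝓝 (∫ x, f x ∂F))

/-- `F` is the limit law of `(L_n(1) - 2 √n) / n^(1/6)` (the law `F₂`). -/
def IsF2 (F : Measure ℝ) : Prop :=
  IsProbabilityMeasure F ∧
    ConvInDist (fun n => mallowsLaw n 1 (2 * Real.sqrt n) ((n : ℝ) ^ (1 / 6 : ℝ))) F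

/-- The explicit centering `2 √n · arcosh (e^{b/2}) / √b`, with `b = (n - 1) log (1 / q)`, and
`2 √n` when `q = 1`. -/
noncomputable def centering (n : ℕ) (q : ℝ) : ℝ :=
  if q = 1 then 2 * Real.sqrt n
  else 2 * Real.sqrt n * Real.arcosh (Real.exp (((n : ℝ) - 1) * (-Real.log q) / 2)) /
    Real.sqrt (((n : ℝ) - 1) * (-Real.log q))

lemma inv_eq {n : ℕ} (π : Equiv.Perm (Fin n)) : inv π = Run7.h147.atPerm Run7.h147.invR π := by
  unfold inv Run7.h147.atPerm Run7.h147.invR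
  congr 1
  ext z
  simp [Run7.h147.relOf]

lemma lis_eq {n : ℕ} (π : Equiv.Perm (Fin n)) : lis π = Run7.h147.lisF π := by
  classical
  unfold lis Run7.h147.lisF Run7.h147.atPerm Run7.h147.clF Run7.h147.mc
  congr 1
  ext s
  simp only [Finset.mem_filter, Finset.mem_univ, true_and, Finset.mem_powerset, Finset.subset_univ,
    Run7.h147.IsCh, Run7.h147.relOf, id]
  constructor
  · intro h a ha b hb hab
    rcases lt_or_gt_of_ne hab with h1 | h1
    · exact Or.inl ⟨h1, h a ha b hb h1⟩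
    · exact Or.inr ⟨h1, h b hb a ha h1⟩
  · intro h i hi j hj hij
    rcases h i hi j hj hij.ne with h1 | h1
    · exact h1.2
    · exact absurd h1.1 (not_lt.2 hij.le)

lemma sum_pos {n : ℕ} {q : ℝ} (hq : 0 < q) : 0 < ∑ σ : Equiv.Perm (Fin n), q ^ inv σ :=
  Finset.sum_pos (fun σ _ => pow_pos hq _) Finset.univ_nonempty

lemma law_apply {n : ℕ} {q a b : ℝ} (hq : 0 < q) {s : Set ℝ} (hs : MeasurableSet s) :
    (mallowsLaw n q a b).real s = (∑ π : Equiv.Perm (Fin n),
      q ^ inv π * s.indicator 1 (((lis π : ℝ) - a) / b)) / ∑ σ : Equiv.Perm (Fin n), q ^ inv σ := by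
  have hZ := sum_pos (n := n) hq
  rw [measureReal_def]
  unfold mallowsLaw
  rw [Measure.finsetSum_apply, ENNReal.toReal_sum, Finset.sum_div]
  · refine Finset.sum_congr rfl fun π _ => ?_
    rw [Measure.smul_apply, smul_eq_mul, Measure.dirac_apply' _ hs, ENNReal.toReal_mul,
      ENNReal.toReal_ofReal (by positivity)]
    by_cases h : ((lis π : ℝ) - a) / b ∈ s
    · simp [Set.indicator_of_mem h]
    · simp [Set.indicator_of_notMem h]
  · intro π _
    rw [Measure.smul_apply, smul_eq_mul]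
    exact ENNReal.mul_ne_top ENNReal.ofReal_ne_top (measure_ne_top _ _)

lemma law_prob {n : ℕ} {q : ℝ} (hq : 0 < q) (a b : ℝ) : IsProbabilityMeasure (mallowsLaw n q a b) := by
  have hZ := sum_pos (n := n) hq
  refine ⟨?_⟩
  unfold mallowsLaw
  rw [Measure.finsetSum_apply]
  simp only [Measure.smul_apply, measure_univ, smul_eq_mul, mul_one]
  rw [← ENNReal.ofReal_sum_of_nonneg (fun π _ => by positivity), ← Finset.sum_div, div_self hZ.ne']
  simp

lemma law_Iic {n : ℕ} {q a b : ℝ} (hq : 0 < q) (hb : 0 < b) (x : ℝ) :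
    (mallowsLaw n q a b).real (Set.Iic x) = Run7.h147.MF n q (a + x * b) := by
  classical
  rw [law_apply hq measurableSet_Iic]
  unfold Run7.h147.MF Run7.h147.EM
  simp only [inv_eq]
  congr 1
  refine Finset.sum_congr rfl fun π _ => ?_
  congr 1
  rw [lis_eq]
  by_cases h : (Run7.h147.lisF π : ℝ) ≤ a + x * b
  · have h2 : ((Run7.h147.lisF π : ℝ) - a) / b ∈ Set.Iic x := by
      rw [Set.mem_Iic, div_le_iff₀ hb]
      linarith
    rw [Set.indicator_of_mem h2, if_pos h]
    rfl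
  · have h2 : ((Run7.h147.lisF π : ℝ) - a) / b ∉ Set.Iic x := by
      rw [Set.mem_Iic, div_le_iff₀ hb]
      intro h3
      exact h (by linarith)
    rw [Set.indicator_of_notMem h2, if_neg h]

/-- `L_n` has a Tracy-Widom limit along `(q_n)`: for some real `a_n` and `b_n > 0`,
`(L_n(q_n) - a_n) / b_n` converges in distribution to `F`. -/
def HasTW (F : Measure ℝ) (q : ℕ → ℝ) : Prop :=
  ∃ a b : ℕ → ℝ, (∀ n, 0 < b n) ∧ ConvInDist (fun n => mallowsLaw n (q n) (a n) (b n)) F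

/-- the Tracy-Widom side -/
theorem range_part (q : ℕ → ℝ) (hq : ∀ n, 0 < q n ∧ q n ≤ 1)
    (hlim : Tendsto (fun n : ℕ => (n : ℝ) * (1 - q n)) atTop (𝓝 0))
    (F : Measure ℝ) (hF : IsF2 F) :
    ∃ a b : ℕ → ℝ, (∀ n, 0 < b n) ∧
      (∀ n, 1 ≤ n → a n = centering n (q n) ∧ b n = (n : ℝ) ^ (1 / 6 : ℝ)) ∧
      ConvInDist (fun n => mallowsLaw n (q n) (a n) (b n)) F := by
  classical
  obtain ⟨hFp, hFc⟩ := hF
  have hb6 : ∀ n : ℕ, 1 ≤ n → 0 < (n : ℝ) ^ (1 / 6 : ℝ) := fun n hn =>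
    Real.rpow_pos_of_pos (by exact_mod_cast hn) _
  refine ⟨fun n => centering n (q n), fun n => if 1 ≤ n then (n : ℝ) ^ (1 / 6 : ℝ) else 1, ?_, ?_, ?_⟩
  · intro n
    by_cases h : 1 ≤ n
    · simp only [h, if_true]; exact hb6 n h
    · simp only [h, if_false]; norm_num
  · intro n hn
    exact ⟨rfl, by simp only [hn, if_true]⟩
  -- the uniform case
  have hU : Run7.h147.UConv (cdf F) := by
    intro x hx
    have h1 := Run7.h147.cdf_of_wconv (fun n => law_prob (n := n) one_pos (2 * Real.sqrt n)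
      ((n : ℝ) ^ (1 / 6 : ℝ))) (F := F) hFc hx
    refine h1.congr' ?_
    filter_upwards [eventually_ge_atTop 1] with n hn
    rw [law_Iic one_pos (hb6 n hn), Run7.h147.MF_one]
  have hmain := Run7.h147.mallows_conv (monotone_cdf F) (tendsto_cdf_atBot F) hU hq hlim
  refine Run7.h147.wconv_of_cdf (fun n => law_prob (hq n).1 _ _) fun x hx => ?_
  refine (hmain x hx).congr' ?_
  filter_upwards [eventually_ge_atTop 1] with n hn
  simp only [hn, if_true]
  rw [law_Iic (hq n).1 (hb6 n hn)]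
  rfl


/-- no Tracy-Widom limit in the window -/
theorem window_part (q : ℕ → ℝ) (hq : ∀ n, 0 < q n ∧ q n ≤ 1) (F : Measure ℝ) (hF : IsF2 F)
    (hT : HasTW F q) {c B : ℝ} (hc : 0 < c) :
    ∀ᶠ n : ℕ in atTop, (n : ℝ) * (1 - q n) < c ∨ B < (n : ℝ) * (1 - q n) := by
  classical
  obtain ⟨hFp, hFc⟩ := hF
  obtain ⟨a, b, hb, hconv⟩ := hT
  have hb6 : ∀ n : ℕ, 1 ≤ n → 0 < (n : ℝ) ^ (1 / 6 : ℝ) := fun n hn =>
    Real.rpow_pos_of_pos (by exact_mod_cast hn) _
  have hU : Run7.h147.UConv (cdf F) := by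
    intro x hx
    have h1 := Run7.h147.cdf_of_wconv (fun n => law_prob (n := n) one_pos (2 * Real.sqrt n)
      ((n : ℝ) ^ (1 / 6 : ℝ))) (F := F) hFc hx
    refine h1.congr' ?_
    filter_upwards [eventually_ge_atTop 1] with n hn
    rw [law_Iic one_pos (hb6 n hn), Run7.h147.MF_one]
  by_contra hcon
  have hfr : ∃ᶠ n : ℕ in atTop, c ≤ (n : ℝ) * (1 - q n) ∧ (n : ℝ) * (1 - q n) ≤ B := by
    rw [Filter.not_eventually] at hcon
    refine hcon.mono fun n hn => ?_
    push Not at hn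
    exact hn
  obtain ⟨φ, hφ, hφ2⟩ := extraction_of_frequently_atTop hfr
  have hφt : Tendsto φ atTop atTop := hφ.tendsto_atTop
  have hH : ∀ x, ContinuousAt (cdf F) x → Tendsto (fun k => Run7.h147.MF (φ k) (q (φ k))
      (a (φ k) + x * b (φ k))) atTop (𝓝 (cdf F x)) := by
    intro x hx
    have h1 := (Run7.h147.cdf_of_wconv (fun n => law_prob (n := n) (hq n).1 (a n) (b n)) (F := F) hconv hx).comp hφt
    refine h1.congr fun k => ?_
    simp only [Function.comp]
    rw [law_Iic (hq _).1 (hb _)]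
  have h2 := (Run7.h147.final_class hU hc hφt (q := fun k => q (φ k)) (Filter.Eventually.of_forall hφ2)
    (a := fun k => a (φ k)) (b := fun k => b (φ k)) (fun k => hb _) hH (Run7.h147.F_not_dirac hU)).2 1 0 (by norm_num)
  refine h2 ?_
  have : (fun y : ℝ => (1 : ℝ) * y + 0) = id := by funext y; simp
  rw [this, Measure.map_id]

/-- Along a sequence with `n (1 - q_n)` bounded, `L_n` has a Tracy-Widom limit if and only if
`n (1 - q_n) → 0`; along any sequence with a Tracy-Widom limit, `0` is the only finite limit point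
of `n (1 - q_n)`. -/
theorem result (F : Measure ℝ) (hF : IsF2 F) (q : ℕ → ℝ) (hq : ∀ n, 0 < q n ∧ q n ≤ 1) :
    ((∃ B : ℝ, ∀ n : ℕ, (n : ℝ) * (1 - q n) ≤ B) →
      (HasTW F q ↔ Tendsto (fun n : ℕ => (n : ℝ) * (1 - q n)) atTop (𝓝 0))) ∧
    (HasTW F q → ∀ c B : ℝ, 0 < c →
      ∀ᶠ n : ℕ in atTop, (n : ℝ) * (1 - q n) < c ∨ B < (n : ℝ) * (1 - q n)) ∧
    (Tendsto (fun n : ℕ => (n : ℝ) * (1 - q n)) atTop (𝓝 0) →
      ∃ a b : ℕ → ℝ, (∀ n, 0 < b n) ∧
        (∀ n, 1 ≤ n → a n = centering n (q n) ∧ b n = (n : ℝ) ^ (1 / 6 : ℝ)) ∧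
        ConvInDist (fun n => mallowsLaw n (q n) (a n) (b n)) F) := by
  refine ⟨?_, fun hT c B hc => window_part q hq F hF hT hc, fun hlim => range_part q hq hlim F hF⟩
  rintro ⟨B, hB⟩
  constructor
  · intro hT
    rw [Metric.tendsto_nhds]
    intro ε hε
    filter_upwards [window_part q hq F hF hT (c := ε) (B := B) hε] with n hn
    have h0 : 0 ≤ (n : ℝ) * (1 - q n) := mul_nonneg (Nat.cast_nonneg _) (by linarith [(hq n).2])
    rw [Real.dist_eq, sub_zero, abs_of_nonneg h0]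
    rcases hn with h | h
    · exact h
    · exact absurd (hB n) (not_le.2 h)
  · intro hlim
    obtain ⟨a, b, hb, _, hconv⟩ := range_part q hq hlim F hF
    exact ⟨a, b, hb, hconv⟩

end Pool.Agent.Results.MP_5d6058_pr.TWBoundedIff
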