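import Pool.Agent.Run7.h147.Final
import Pool.Agent.Run7.h147.Ml9

/-!
Non-Gaussian limits, different from the Tracy-Widom law, for the longest increasing subsequence of
a Mallows permutation in the window where `n (1 - q_n)` is bounded above and below.
-/

namespace Pool.Agent.Results.MP_5d6058_pr.WindowLimits

open MeasureTheory Filter Topology ProbabilityTheory

/-- The number of inversions of a permutation. -/
def inv {n : ℕ} (π : Equiv.Perm (Fin n)) : ℕ :=
  (Finset.univ.filter fun z : Fin n × Fin n => z.1 < z.2 ∧ π z.2 < π z.1).card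

/-- The length of a longest increasing subsequence of a permutation. -/
def lis {n : ℕ} (π : Equiv.Perm (Fin n)) : ℕ :=
  (Finset.univ.filter fun s : Finset (Fin n) => ∀ i ∈ s, ∀ j ∈ s, i < j → π i < π j).sup Finset.card

/-- The law of `(L_n(q) - a) / b`, where `L_n(q)` is the length of a longest increasing
subsequence of a Mallows(`q`) permutation of size `n`. -/
noncomputable def mallowsLaw (n : ℕ) (q a b : ℝ) : Measure ℝ :=
  ∑ π : Equiv.Perm (Fin n), ENNReal.ofReal (q ^ inv π / ∑ σ : Equiv.Perm (Fin n), q ^ inv σ) •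
    Measure.dirac (((lis π : ℝ) - a) / b)

/-- Convergence in distribution of probability measures on the line. -/
def ConvInDist (μ : ℕ → Measure ℝ) (F : Measure ℝ) : Prop :=
  ∀ f : BoundedContinuousFunction ℝ ℝ, Tendsto (fun n => ∫ x, f x ∂(μ n)) atTop (𝓝 (∫ x, f x ∂F))

/-- `F` is the limit law of `(L_n(1) - 2 √n) / n^(1/6)` (the law `F₂`). -/
def IsF2 (F : Measure ℝ) : Prop :=
  IsProbabilityMeasure F ∧
    ConvInDist (fun n => mallowsLaw n 1 (2 * Real.sqrt n) ((n : ℝ) ^ (1 / 6 : ℝ))) F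

/-- The explicit centering `2 √n · arcosh (e^{b/2}) / √b`, with `b = n log (1 / q)`. -/
noncomputable def centering (n : ℕ) (q : ℝ) : ℝ :=
  2 * Real.sqrt n * Real.arcosh (Real.exp ((n : ℝ) * (-Real.log q) / 2)) / Real.sqrt ((n : ℝ) * (-Real.log q))

/-- The explicit scale, the cube root of half the centering. -/
noncomputable def scaling (n : ℕ) (q : ℝ) : ℝ := (centering n q / 2) ^ (1 / 3 : ℝ)

/-- `H` is a nondegenerate probability measure which is not Gaussian and is not the image of `F`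
under an affine map with nonnegative slope; in particular it is not `F`. -/
def IsNew (F H : Measure ℝ) : Prop :=
  IsProbabilityMeasure H ∧ (∀ x, H ≠ Measure.dirac x) ∧ (∀ (m : ℝ) (v : NNReal), H ≠ gaussianReal m v) ∧
    ∀ γ δ : ℝ, 0 ≤ γ → H ≠ F.map (fun y => γ * y + δ)

lemma inv_eq {n : ℕ} (π : Equiv.Perm (Fin n)) : inv π = Run7.h147.atPerm Run7.h147.invR π := by
  unfold inv Run7.h147.atPerm Run7.h147.invR
  congr 1
  ext z
  simp [Run7.h147.relOf]

lemma lis_eq {n : ℕ} (π : Equiv.Perm (Fin n)) : lis π = Run7.h147.lisF π := by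
  classical
  unfold lis Run7.h147.lisF Run7.h147.atPerm Run7.h147.clF Run7.h147.mc
  congr 1
  ext s
  simp only [Finset.mem_filter, Finset.mem_univ, true_and, Finset.mem_powerset, Finset.subset_univ,
    Run7.h147.IsCh, Run7.h147.relOf, id]
  constructor
  · intro h a ha b hb hab
    rcases lt_or_gt_of_ne hab with h1 | h1
    · exact Or.inl ⟨h1, h a ha b hb h1⟩
    · exact Or.inr ⟨h1, h b hb a ha h1⟩
  · intro h i hi j hj hij
    rcases h i hi j hj hij.ne with h1 | h1
    · exact h1.2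
    · exact absurd h1.1 (not_lt.2 hij.le)

lemma sum_pos {n : ℕ} {q : ℝ} (hq : 0 < q) : 0 < ∑ σ : Equiv.Perm (Fin n), q ^ inv σ :=
  Finset.sum_pos (fun σ _ => pow_pos hq _) Finset.univ_nonempty

lemma law_apply {n : ℕ} {q a b : ℝ} (hq : 0 < q) {s : Set ℝ} (hs : MeasurableSet s) :
    (mallowsLaw n q a b).real s = (∑ π : Equiv.Perm (Fin n),
      q ^ inv π * s.indicator 1 (((lis π : ℝ) - a) / b)) / ∑ σ : Equiv.Perm (Fin n), q ^ inv σ := by
  have hZ := sum_pos (n := n) hq
  rw [measureReal_def]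
  unfold mallowsLaw
  rw [Measure.finsetSum_apply, ENNReal.toReal_sum, Finset.sum_div]
  · refine Finset.sum_congr rfl fun π _ => ?_
    rw [Measure.smul_apply, smul_eq_mul, Measure.dirac_apply' _ hs, ENNReal.toReal_mul,
      ENNReal.toReal_ofReal (by positivity)]
    by_cases h : ((lis π : ℝ) - a) / b ∈ s
    · simp [Set.indicator_of_mem h]
    · simp [Set.indicator_of_notMem h]
  · intro π _
    rw [Measure.smul_apply, smul_eq_mul]
    exact ENNReal.mul_ne_top ENNReal.ofReal_ne_top (measure_ne_top _ _)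

lemma law_prob {n : ℕ} {q : ℝ} (hq : 0 < q) (a b : ℝ) : IsProbabilityMeasure (mallowsLaw n q a b) := by
  have hZ := sum_pos (n := n) hq
  refine ⟨?_⟩
  unfold mallowsLaw
  rw [Measure.finsetSum_apply]
  simp only [Measure.smul_apply, measure_univ, smul_eq_mul, mul_one]
  rw [← ENNReal.ofReal_sum_of_nonneg (fun π _ => by positivity), ← Finset.sum_div, div_self hZ.ne']
  simp

lemma law_Iic {n : ℕ} {q a b : ℝ} (hq : 0 < q) (hb : 0 < b) (x : ℝ) :
    (mallowsLaw n q a b).real (Set.Iic x) = Run7.h147.MF n q (a + x * b) := by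
  classical
  rw [law_apply hq measurableSet_Iic]
  unfold Run7.h147.MF Run7.h147.EM
  simp only [inv_eq]
  congr 1
  refine Finset.sum_congr rfl fun π _ => ?_
  congr 1
  rw [lis_eq]
  by_cases h : (Run7.h147.lisF π : ℝ) ≤ a + x * b
  · have h2 : ((Run7.h147.lisF π : ℝ) - a) / b ∈ Set.Iic x := by
      rw [Set.mem_Iic, div_le_iff₀ hb]
      linarith
    rw [Set.indicator_of_mem h2, if_pos h]
    rfl
  · have h2 : ((Run7.h147.lisF π : ℝ) - a) / b ∉ Set.Iic x := by
      rw [Set.mem_Iic, div_le_iff₀ hb]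
      intro h3
      exact h (by linarith)
    rw [Set.indicator_of_notMem h2, if_neg h]

/-- Let `c ≤ n (1 - q_n) ≤ B` for all large `n`, with `c > 0`. Then, with the explicit centering and
scale (which is of exact order `n^(1/6)`), every subsequence has a further subsequence along which
the normalised `L_n(q_n)` converges in distribution to a nondegenerate law that is neither Gaussian
nor an affine image of `F₂`; and every nondegenerate subsequential limit of every affine
normalisation of `L_n(q_n)` is neither Gaussian nor an affine image of `F₂`. -/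
theorem result (F : Measure ℝ) (hF : IsF2 F) (q : ℕ → ℝ) (hq : ∀ n, 0 < q n ∧ q n ≤ 1) (c B : ℝ)
    (hc : 0 < c) (hcB : ∀ᶠ n : ℕ in atTop, c ≤ (n : ℝ) * (1 - q n) ∧ (n : ℝ) * (1 - q n) ≤ B) :
    (∃ C : ℝ, ∀ᶠ n : ℕ in atTop, (n : ℝ) ^ (1 / 6 : ℝ) ≤ scaling n (q n) ∧
      scaling n (q n) ≤ C * (n : ℝ) ^ (1 / 6 : ℝ)) ∧
    (∀ φ : ℕ → ℕ, StrictMono φ → ∃ ψ : ℕ → ℕ, StrictMono ψ ∧ ∃ H : Measure ℝ, IsNew F H ∧
      ConvInDist (fun k => mallowsLaw (φ (ψ k)) (q (φ (ψ k))) (centering (φ (ψ k)) (q (φ (ψ k))))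
        (scaling (φ (ψ k)) (q (φ (ψ k))))) H) ∧
    (∀ φ : ℕ → ℕ, StrictMono φ → ∀ a b : ℕ → ℝ, (∀ k, 0 < b k) → ∀ H : Measure ℝ,
      IsProbabilityMeasure H → (∀ x, H ≠ Measure.dirac x) →
      ConvInDist (fun k => mallowsLaw (φ k) (q (φ k)) (a k) (b k)) H → IsNew F H) := by
  classical
  obtain ⟨hFp, hFc⟩ := hF
  have hb6 : ∀ n : ℕ, 1 ≤ n → 0 < (n : ℝ) ^ (1 / 6 : ℝ) := fun n hn =>
    Real.rpow_pos_of_pos (by exact_mod_cast hn) _
  have hU : Run7.h147.UConv (cdf F) := by
    intro x hx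
    have h1 := Run7.h147.cdf_of_wconv (fun n => law_prob (n := n) one_pos (2 * Real.sqrt n)
      ((n : ℝ) ^ (1 / 6 : ℝ))) (F := F) hFc hx
    refine h1.congr' ?_
    filter_upwards [eventually_ge_atTop 1] with n hn
    rw [law_Iic one_pos (hb6 n hn), Run7.h147.MF_one]
  have part3 : ∀ φ : ℕ → ℕ, StrictMono φ → ∀ a b : ℕ → ℝ, (∀ k, 0 < b k) → ∀ H : Measure ℝ,
      IsProbabilityMeasure H → (∀ x, H ≠ Measure.dirac x) →
      ConvInDist (fun k => mallowsLaw (φ k) (q (φ k)) (a k) (b k)) H → IsNew F H := by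
    intro φ hφ a b hb H hHp hnd hconv
    have hφt : Tendsto φ atTop atTop := hφ.tendsto_atTop
    have hH : ∀ x, ContinuousAt (cdf H) x → Tendsto (fun k => Run7.h147.MF (φ k) (q (φ k))
        (a k + x * b k)) atTop (𝓝 (cdf H x)) := by
      intro x hx
      have h1 := Run7.h147.cdf_of_wconv (fun k => law_prob (n := φ k) (hq (φ k)).1 (a k) (b k)) (F := H) hconv hx
      refine h1.congr fun k => ?_
      rw [law_Iic (hq _).1 (hb _)]
    obtain ⟨h1, h2⟩ := Run7.h147.final_class hU hc hφt (q := fun k => q (φ k)) (hφt.eventually hcB) hb hH hnd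
    exact ⟨hHp, hnd, h1, h2⟩
  refine ⟨?_, ?_, part3⟩
  · obtain ⟨C, _, h⟩ := Run7.h147.sclW_bounds (n := fun k => k) hc tendsto_id (q := q) hcB
    exact ⟨C, h⟩
  · intro φ hφ
    have hφt : Tendsto φ atTop atTop := hφ.tendsto_atTop
    obtain ⟨ψ, hψ, H, hHp, hnd, hconv⟩ := Run7.h147.sub_exist hU hc hφt (q := fun k => q (φ k)) (hφt.eventually hcB)
      (μ := fun k => mallowsLaw (φ k) (q (φ k)) (centering (φ k) (q (φ k))) (scaling (φ k) (q (φ k))))
      (fun k => law_prob (hq _).1 _ _) (fun k h1 h2 x => law_Iic h1 h2 x)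
    refine ⟨ψ, hψ, H, ?_, hconv⟩
    -- classification, after replacing finitely many scales
    obtain ⟨C, _, hC⟩ := Run7.h147.sclW_bounds (n := fun k => k) hc tendsto_id (q := q) hcB
    have hpos : ∀ᶠ n : ℕ in atTop, 0 < scaling n (q n) := by
      filter_upwards [hC, eventually_ge_atTop 1] with n hn hn1
      exact lt_of_lt_of_le (hb6 n hn1) hn.1
    have hφψ : Tendsto (fun k => φ (ψ k)) atTop atTop := hφt.comp hψ.tendsto_atTop
    refine part3 (fun k => φ (ψ k)) (hφ.comp hψ) (fun k => centering (φ (ψ k)) (q (φ (ψ k))))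
      (fun k => if 0 < scaling (φ (ψ k)) (q (φ (ψ k))) then scaling (φ (ψ k)) (q (φ (ψ k))) else 1) ?_ H hHp hnd ?_
    · intro k
      by_cases h : 0 < scaling (φ (ψ k)) (q (φ (ψ k)))
      · simp only [h, if_true]
      · simp only [h, if_false]; norm_num
    · intro f
      refine (hconv f).congr' ?_
      filter_upwards [hφψ.eventually hpos] with k hk
      simp only [hk, if_true]

end Pool.Agent.Results.MP_5d6058_pr.WindowLimits
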